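import Mathlib

/-!
# Weil–Deligne representations and their characteristic polynomials

`W` is the Weil group of the local field `ℚ_p` (only the following is used: it is a topological group with a
homomorphism `ν` to `ℤ`; the kernel of `ν` is the inertia group and `ν` is `1` at the geometric Frobenius elements).
-/

set_option autoImplicit false

namespace Pool.Agent.Q173.WD

open Polynomial

section

variable {W : Type} [Group W]

/-- The degree `ν w` of `w`, an integer. -/
def dg (ν : W →* Multiplicative ℤ) (w : W) : ℤ := (ν w).toAdd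

lemma dg_mul (ν : W →* Multiplicative ℤ) (a b : W) : dg ν (a * b) = dg ν a + dg ν b := by
  simp [dg]

lemma dg_inv (ν : W →* Multiplicative ℤ) (a : W) : dg ν a⁻¹ = -dg ν a := by
  simp [dg]

lemma dg_one (ν : W →* Multiplicative ℤ) : dg ν 1 = 0 := by
  simp [dg]

lemma dg_zpow (ν : W →* Multiplicative ℤ) (a : W) (n : ℤ) : dg ν (a ^ n) = n * dg ν a := by
  simp [dg]

lemma dg_eq_zero {ν : W →* Multiplicative ℤ} {g : W} : dg ν g = 0 ↔ g ∈ ν.ker := by
  rw [MonoidHom.mem_ker]
  unfold dg
  exact toAdd_eq_zero

end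

/-- A space with an action of `W` and a monodromy operator. -/
structure Dat (Ω : Type) [Field Ω] (W : Type) where
  /-- the space -/
  V : Type
  [acg : AddCommGroup V]
  [mod : Module Ω V]
  [fin : Module.Finite Ω V]
  /-- the action of `W` -/
  ρ : W → V →ₗ[Ω] V
  /-- the monodromy operator -/
  N : V →ₗ[Ω] V

attribute [instance] Dat.acg Dat.mod Dat.fin

section

variable {Ω : Type} [Field Ω] {W : Type}

/-- The action of `w`. -/
def Dat.act (A : Dat Ω W) (w : W) (x : A.V) : A.V := A.ρ w x

/-- The monodromy operator. -/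
def Dat.mon (A : Dat Ω W) (x : A.V) : A.V := A.N x

/-- The `m`-th power of the monodromy operator. -/
def Dat.monPow (A : Dat Ω W) (m : ℕ) (x : A.V) : A.V := A.mon^[m] x

/-- Multiplication by the power `p ^ n`. -/
noncomputable def Dat.twist (A : Dat Ω W) (p : ℕ) (n : ℤ) (x : A.V) : A.V := ((p : Ω) ^ n) • x

lemma Dat.monPow_eq (A : Dat Ω W) (m : ℕ) (x : A.V) : A.monPow m x = (A.N ^ m) x := by
  unfold Dat.monPow
  induction m generalizing x with
  | zero => rfl
  | succ m ih =>
    rw [Function.iterate_succ_apply, ih, pow_succ, Module.End.mul_apply]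
    rfl

variable [Group W]

/-- The pair `(ρ, N)` is a Weil–Deligne representation of `W`; `p` is the number of elements of the residue field. For
an `ℓ`-adic representation of the Galois group it is given by the monodromy theorem of Grothendieck; the inertia
invariants are then the invariants of the inertia group in the kernel of `N`. -/
structure Dat.IsRep (A : Dat Ω W) [TopologicalSpace W] (ν : W →* Multiplicative ℤ) (p : ℕ) : Prop where
  one : ∀ x, A.act 1 x = x
  mul : ∀ a b x, A.act (a * b) x = A.act a (A.act b x)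
  nil : ∃ k, ∀ x, A.monPow k x = 0
  rel : ∀ w x, A.mon (A.act w x) = A.twist p (dg ν w) (A.act w (A.mon x))
  smooth : ∃ J : Subgroup W, IsOpen (J : Set W) ∧ J ≤ ν.ker ∧ ∀ g ∈ J, ∀ x, A.act g x = x

/-- An isomorphism which respects the action of `W` and the monodromy operators. -/
def Dat.IsIso (A B : Dat Ω W) : Prop :=
  ∃ e : A.V ≃ₗ[Ω] B.V, ∀ x, (∀ w, e (A.act w x) = B.act w (e x)) ∧ e (A.mon x) = B.mon (e x)

/-- The direct sum. -/
def Dat.sum (A B : Dat Ω W) : Dat Ω W where
  V := A.V × B.V
  ρ w := (A.ρ w).prodMap (B.ρ w)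
  N := A.N.prodMap B.N

/-- The Tate twist `A(-1)`. -/
noncomputable def Dat.tate (A : Dat Ω W) (ν : W →* Multiplicative ℤ) (p : ℕ) : Dat Ω W where
  V := A.V
  ρ w := (p : Ω) ^ dg ν w • A.ρ w
  N := A.N

/-- The tensor product of `A` with the cohomology `H^1(E)` of an elliptic curve `E` with split multiplicative
reduction: `H^1(E)` has the basis `e, e'` with `w e = e`, `w e' = p ^ (ν w) e'`, `N e' = e`, `N e = 0`; the pair
`(x, y)` stands for `x ⊗ e + y ⊗ e'`. -/
noncomputable def Dat.curve (A : Dat Ω W) (ν : W →* Multiplicative ℤ) (p : ℕ) : Dat Ω W where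
  V := A.V × A.V
  ρ w := (A.ρ w).prodMap ((p : Ω) ^ dg ν w • A.ρ w)
  N := LinearMap.prod (A.N ∘ₗ LinearMap.fst Ω A.V A.V + LinearMap.snd Ω A.V A.V) (A.N ∘ₗ LinearMap.snd Ω A.V A.V)

/-- The element `x` lies in the kernel of `N ^ m` and is invariant under the inertia group of the subgroup `U`. -/
def Dat.Inv (A : Dat Ω W) (ν : W →* Multiplicative ℤ) (U : Subgroup W) (m : ℕ) (x : A.V) : Prop :=
  A.monPow m x = 0 ∧ ∀ g ∈ U, g ∈ ν.ker → A.act g x = x

/-- The invariants of the inertia group of the subgroup `U` in the kernel of `N ^ m`. (If `U` is the Weil group of a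
finite extension `K` of `ℚ_p` and `m = 1`, these are the inertia invariants over `K`.) -/
def Dat.inv (A : Dat Ω W) (ν : W →* Multiplicative ℤ) (U : Subgroup W) (m : ℕ) : Submodule Ω A.V where
  carrier := {x | A.Inv ν U m x}
  add_mem' := by
    rintro x y ⟨h1, h2⟩ ⟨h3, h4⟩
    rw [Dat.monPow_eq] at h1 h3
    refine ⟨by rw [Dat.monPow_eq, map_add, h1, h3, add_zero], fun g hg hν => ?_⟩
    have h5 := h2 g hg hν
    have h6 := h4 g hg hν
    unfold Dat.act at h5 h6 ⊢
    rw [map_add, h5, h6]
  zero_mem' := ⟨by rw [Dat.monPow_eq, map_zero], fun g _ _ => map_zero (A.ρ g)⟩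
  smul_mem' := by
    rintro c x ⟨h1, h2⟩
    rw [Dat.monPow_eq] at h1
    refine ⟨by rw [Dat.monPow_eq, map_smul, h1, smul_zero], fun g hg hν => ?_⟩
    have h5 := h2 g hg hν
    unfold Dat.act at h5 ⊢
    rw [map_smul, h5]

end

/-- The characteristic polynomial `det(T - f)` of the restriction of the endomorphism `f` to the subspace `S` (`0` if
`S` is not stable under `f`). -/
noncomputable def resChar {Ω V : Type} [Field Ω] [AddCommGroup V] [Module Ω V] [Module.Finite Ω V]
    (f : V →ₗ[Ω] V) (S : Submodule Ω V) : Polynomial Ω := by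
  classical
  exact if h : ∀ x ∈ S, f x ∈ S then (f.restrict h).charpoly else 0

section

variable {Ω : Type} [Field Ω] {W : Type} [Group W]

/-- The polynomial `det(T - w)` of the element `w` on the inertia invariants of `U` in the kernel of `N ^ m`. -/
noncomputable def Dat.pol (A : Dat Ω W) (ν : W →* Multiplicative ℤ) (U : Subgroup W) (w : W) (m : ℕ) :
    Polynomial Ω := resChar (A.ρ w) (A.inv ν U m)

/-- The polynomial `det(1 - T w)` of the element `w` of `U` on the inertia invariants of `U` in the kernel of `N ^ m`.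
For `m = 1`, `U = W` and a geometric Frobenius `w` this is the local Euler factor. -/
noncomputable def Dat.euler (A : Dat Ω W) (ν : W →* Multiplicative ℤ) (U : Subgroup W) (w : W) (m : ℕ) :
    Polynomial Ω := (A.pol ν U w m).reverse

/-- The characteristic polynomial `det(T - w)` of the element `w` of `W` on the kernel of `N ^ m`. -/
noncomputable def Dat.char (A : Dat Ω W) (w : W) (m : ℕ) : Polynomial Ω := resChar (A.ρ w) (LinearMap.ker (A.N ^ m))

/-- The dimension of the inertia invariants of `U` in the kernel of `N ^ m`. -/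
noncomputable def Dat.invDim (A : Dat Ω W) (ν : W →* Multiplicative ℤ) (U : Subgroup W) (m : ℕ) : ℕ :=
  Module.finrank Ω (A.inv ν U m)

end

/-- The element `w` of the subgroup `U` of `W` is a geometric Frobenius element of `U`. -/
def IsFrob {W : Type} [Group W] (ν : W →* Multiplicative ℤ) (U : Subgroup W) (w : W) : Prop :=
  w ∈ U ∧ 0 < dg ν w ∧ ∀ u ∈ U, 0 < dg ν u → dg ν w ≤ dg ν u

/-- The subgroup `U` is the Weil group of a finite extension of `ℚ_p`: it is open and contains an element of positive
degree. -/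
def IsField {W : Type} [Group W] [TopologicalSpace W] (ν : W →* Multiplicative ℤ) (U : Subgroup W) : Prop :=
  IsOpen (U : Set W) ∧ ∃ w ∈ U, 0 < dg ν w

/-- The prime numbers `ℓ ≠ p`. -/
def Aux (p : ℕ) : Type := {ℓ : ℕ // ℓ.Prime ∧ ℓ ≠ p}

instance (p : ℕ) (ℓ : Aux p) : Fact ℓ.1.Prime := ⟨ℓ.2.1⟩

/-- The field `ℚ_ℓ`. -/
def Ql {p : ℕ} (ℓ : Aux p) : Type := ℚ_[ℓ.1]

noncomputable instance {p : ℕ} (ℓ : Aux p) : Field (Ql ℓ) := inferInstanceAs (Field ℚ_[ℓ.1])

instance {p : ℕ} (ℓ : Aux p) : CharZero (Ql ℓ) := inferInstanceAs (CharZero ℚ_[ℓ.1])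

/-- The polynomials `P ℓ` with coefficients in `ℚ_ℓ` are equal to one polynomial with integral coefficients. -/
def Same {p : ℕ} (P : (ℓ : Aux p) → Polynomial (Ql ℓ)) : Prop :=
  ∃ R : Polynomial ℤ, ∀ ℓ, P ℓ = R.map (Int.castRingHom (Ql ℓ))

/-- All coefficients of the polynomial are algebraic integers. -/
def IntCoeff {Ω : Type} [Field Ω] (P : Polynomial Ω) : Prop := ∀ i, IsIntegral ℤ (P.coeff i)

/-- The data of the Weil–Deligne representations on `H^n(X_{\bar ℚ}, ℚ_ℓ)` for all varieties `X` of a class `C` of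
smooth projective varieties over `ℚ` and all primes `ℓ ≠ p`. -/
structure Theory (p : ℕ) (W : Type) (C : Type*) where
  /-- the representation -/
  H : C → (ℓ : Aux p) → ℤ → Dat (Ql ℓ) W

section

variable {p : ℕ} {W : Type} [Group W] {C : Type*}

/-- The polynomials `det(1 - T w)` on the inertia invariants of `U` in the kernel of `N ^ m` on `H^n(X)` have integral
coefficients and do not depend on `ℓ`, for all `n`. -/
def Theory.Good (T : Theory p W C) (ν : W →* Multiplicative ℤ) (U : Subgroup W) (w : W) (m : ℕ) (X : C) : Prop :=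
  ∀ n, Same (fun ℓ => (T.H X ℓ n).euler ν U w m)

/-- The characteristic polynomials `det(T - w)` on the kernel of `N ^ m` on `H^n(X)` have integral coefficients and do
not depend on `ℓ`, for all `n`. -/
def Theory.GoodChar (T : Theory p W C) (w : W) (m : ℕ) (X : C) : Prop :=
  ∀ n, Same (fun ℓ => (T.H X ℓ n).char w m)

/-- The known properties. `E X` is the product of `X` with an elliptic curve over `ℚ` with split multiplicative
reduction at `p`. -/
structure Theory.IsKnown (T : Theory p W C) [TopologicalSpace W] (ν : W →* Multiplicative ℤ) (E : C → C) :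
    Prop where
  rep : ∀ X ℓ n, (T.H X ℓ n).IsRep ν p
  /-- there are elements of degree one (Frobenius elements), and the inertia group is open -/
  frob : ∃ F, dg ν F = 1
  inertia : IsOpen (ν.ker : Set W)
  /-- the Künneth formula for `X × E` -/
  kunneth : ∀ X ℓ n, (T.H (E X) ℓ n).IsIso
    ((T.H X ℓ n).sum (((T.H X ℓ (n - 1)).curve ν p).sum ((T.H X ℓ (n - 2)).tate ν p)))
  /-- Euler factors over finite extensions of `ℚ_p`: for every finite extension `K` with Weil group `U` there is a
  number field `L` with `L ⊗ ℚ_p = K`; for the variety `S X = X × Spec L` over `ℚ` the Euler factor at `p` is the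
  Euler factor of `X` over `K` in the variable `T ^ f`, `f` the degree of the residue field. -/
  ext : ∀ U, IsField ν U → ∃ S : C → C, ∀ X ℓ n F w, IsFrob ν ⊤ F → IsFrob ν U w →
    (T.H (S X) ℓ n).euler ν ⊤ F 1 = expand _ (dg ν w).toNat ((T.H X ℓ n).euler ν U w 1)
  /-- the eigenvalues of the elements of positive degree are algebraic integers -/
  int : ∀ X ℓ n w, 0 < dg ν w → IntCoeff ((T.H X ℓ n).ρ w).charpoly

end

end Pool.Agent.Q173.WD
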