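import Pool.Agent.Q173.WD.Defs

/-!
# Characteristic polynomials of sums, Tate twists and products with a Tate curve
-/

set_option autoImplicit false

namespace Pool.Agent.Q173.WD

open Polynomial

section general

variable {Ω : Type} [Field Ω] {V V' V'' : Type} [AddCommGroup V] [Module Ω V] [Module.Finite Ω V]
  [AddCommGroup V'] [Module Ω V'] [Module.Finite Ω V'] [AddCommGroup V''] [Module Ω V''] [Module.Finite Ω V'']

lemma charpoly_eq_of_equiv (f : V →ₗ[Ω] V) (g : V' →ₗ[Ω] V') (e : V ≃ₗ[Ω] V')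
    (h : ∀ x, e (f x) = g (e x)) : f.charpoly = g.charpoly := by
  have h1 : e.conj f = g := by
    apply LinearMap.ext
    intro y
    rw [LinearEquiv.conj_apply]
    change e (f (e.symm y)) = g y
    rw [h, LinearEquiv.apply_symm_apply]
  rw [← h1, LinearEquiv.charpoly_conj]

lemma charpoly_smul [Infinite Ω] (c : Ω) (hc : c ≠ 0) (f : V →ₗ[Ω] V) :
    (c • f).charpoly = f.charpoly.scaleRoots c := by
  apply Polynomial.funext
  intro t
  have e1 : (f.charpoly.scaleRoots c).eval t = c ^ f.charpoly.natDegree * f.charpoly.eval (c⁻¹ * t) := by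
    have h := scaleRoots_eval_mul f.charpoly (c⁻¹ * t) c
    rw [mul_inv_cancel_left₀ hc] at h
    exact h
  rw [e1, LinearMap.eval_charpoly, LinearMap.eval_charpoly, LinearMap.charpoly_natDegree]
  have e2 : algebraMap Ω (Module.End Ω V) t - c • f = c • (algebraMap Ω (Module.End Ω V) (c⁻¹ * t) - f) := by
    apply LinearMap.ext
    intro x
    simp only [LinearMap.sub_apply, LinearMap.smul_apply, Module.algebraMap_end_apply, smul_sub, smul_smul]
    rw [mul_inv_cancel_left₀ hc]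
  rw [e2, LinearMap.det_smul]

lemma charpoly_restrict_dvd [Infinite Ω] (f : V →ₗ[Ω] V) (S : Submodule Ω V) (h : ∀ x ∈ S, f x ∈ S) :
    (f.restrict h).charpoly ∣ f.charpoly := by
  refine ⟨(S.mapQ S f h).charpoly, ?_⟩
  apply Polynomial.funext
  intro t
  rw [eval_mul, LinearMap.eval_charpoly, LinearMap.eval_charpoly, LinearMap.eval_charpoly]
  have h' : S ≤ S.comap (algebraMap Ω (Module.End Ω V) t - f) := by
    intro x hx
    rw [Submodule.mem_comap, LinearMap.sub_apply, Module.algebraMap_end_apply]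
    exact S.sub_mem (S.smul_mem t hx) (h x hx)
  rw [LinearMap.det_eq_det_mul_det S _ h']
  congr 2
  apply LinearMap.ext
  intro y
  obtain ⟨x, rfl⟩ := S.mkQ_surjective y
  simp [Submodule.mapQ_apply]

lemma resChar_eq {f : V →ₗ[Ω] V} {S : Submodule Ω V} (h : ∀ x ∈ S, f x ∈ S) :
    resChar f S = (f.restrict h).charpoly := by
  unfold resChar
  rw [dif_pos h]

/-- two equivalent restrictions; the map `e` between the subspaces is given by a linear map of the spaces -/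
lemma resChar_equiv {f : V →ₗ[Ω] V} {g : V' →ₗ[Ω] V'} {S : Submodule Ω V} {S' : Submodule Ω V'}
    (hf : ∀ x ∈ S, f x ∈ S) (hg : ∀ x ∈ S', g x ∈ S') (e : V →ₗ[Ω] V') (he : ∀ x ∈ S, e x ∈ S')
    (e' : V' →ₗ[Ω] V) (he' : ∀ x ∈ S', e' x ∈ S) (h1 : ∀ x ∈ S, e' (e x) = x) (h2 : ∀ x ∈ S', e (e' x) = x)
    (h : ∀ x ∈ S, e (f x) = g (e x)) : resChar f S = resChar g S' := by
  rw [resChar_eq hf, resChar_eq hg]
  refine charpoly_eq_of_equiv _ _ (LinearEquiv.ofLinear (e.restrict he) (e'.restrict he') ?_ ?_) ?_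
  · apply LinearMap.ext
    rintro ⟨x, hx⟩
    exact Subtype.ext (h2 x hx)
  · apply LinearMap.ext
    rintro ⟨x, hx⟩
    exact Subtype.ext (h1 x hx)
  · rintro ⟨x, hx⟩
    exact Subtype.ext (h x hx)

/-- restriction to a product -/
lemma resChar_prod {g : V' →ₗ[Ω] V'} {g' : V'' →ₗ[Ω] V''} {S' : Submodule Ω V'} {S'' : Submodule Ω V''}
    (hg : ∀ x ∈ S', g x ∈ S') (hg' : ∀ x ∈ S'', g' x ∈ S'') :
    resChar (g.prodMap g') (S'.prod S'') = resChar g S' * resChar g' S'' := by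
  have h : ∀ x ∈ S'.prod S'', (g.prodMap g') x ∈ S'.prod S'' := fun x hx => ⟨hg _ hx.1, hg' _ hx.2⟩
  rw [resChar_eq h, resChar_eq hg, resChar_eq hg', ← LinearMap.charpoly_prodMap]
  refine charpoly_eq_of_equiv _ _
    { toFun := fun x => (⟨x.1.1, x.2.1⟩, ⟨x.1.2, x.2.2⟩)
      map_add' := fun _ _ => rfl
      map_smul' := fun _ _ => rfl
      invFun := fun x => ⟨(x.1.1, x.2.1), ⟨x.1.2, x.2.2⟩⟩
      left_inv := fun _ => rfl
      right_inv := fun _ => rfl } ?_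
  rintro ⟨x, hx⟩
  rfl

end general

section

variable {Ω : Type} [Field Ω] {W : Type} [Group W] {ν : W →* Multiplicative ℤ} {p : ℕ}

lemma Dat.mem_inv (A : Dat Ω W) (U : Subgroup W) (m : ℕ) (x : A.V) :
    x ∈ A.inv ν U m ↔ (A.N ^ m) x = 0 ∧ ∀ g ∈ U, g ∈ ν.ker → A.ρ g x = x := by
  rw [← A.monPow_eq]
  rfl

variable [TopologicalSpace W]

lemma Dat.IsRep.rel' {A : Dat Ω W} (h : A.IsRep ν p) (w : W) (x : A.V) :
    A.N (A.ρ w x) = ((p : Ω) ^ dg ν w) • A.ρ w (A.N x) := h.rel w x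

lemma Dat.IsRep.mul' {A : Dat Ω W} (h : A.IsRep ν p) (a b : W) (x : A.V) :
    A.ρ (a * b) x = A.ρ a (A.ρ b x) := h.mul a b x

lemma Dat.IsRep.one' {A : Dat Ω W} (h : A.IsRep ν p) (x : A.V) : A.ρ 1 x = x := h.one x

lemma Dat.IsRep.pow_rel {A : Dat Ω W} (h : A.IsRep ν p) (w : W) (m : ℕ) (x : A.V) :
    (A.N ^ m) (A.ρ w x) = ((p : Ω) ^ dg ν w) ^ m • A.ρ w ((A.N ^ m) x) := by
  induction m generalizing x with
  | zero => simp
  | succ m ih =>
    rw [pow_succ' A.N, Module.End.mul_apply, ih, map_smul, h.rel', Module.End.mul_apply, smul_smul, pow_succ]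

lemma Dat.IsRep.inv_map {A : Dat Ω W} (h : A.IsRep ν p) {U : Subgroup W} {w : W} (hw : w ∈ U) (m : ℕ) :
    ∀ x ∈ A.inv ν U m, A.ρ w x ∈ A.inv ν U m := by
  intro x hx
  rw [A.mem_inv] at hx ⊢
  obtain ⟨h1, h2⟩ := hx
  refine ⟨by rw [h.pow_rel, h1, map_zero, smul_zero], ?_⟩
  intro g hg hν
  have h3 : A.ρ (w⁻¹ * g * w) x = x := by
    apply h2
    · exact U.mul_mem (U.mul_mem (U.inv_mem hw) hg) hw
    · rw [MonoidHom.mem_ker] at hν ⊢
      rw [map_mul, map_mul, hν, mul_one, ← map_mul, inv_mul_cancel, map_one]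
  have h4 : g * w = w * (w⁻¹ * g * w) := by group
  rw [← h.mul', h4, h.mul', h3]

lemma Dat.IsRep.ker_map {A : Dat Ω W} (h : A.IsRep ν p) (w : W) (m : ℕ) :
    ∀ x ∈ LinearMap.ker (A.N ^ m), A.ρ w x ∈ LinearMap.ker (A.N ^ m) := by
  intro x hx
  rw [LinearMap.mem_ker] at hx ⊢
  rw [h.pow_rel, hx, map_zero, smul_zero]

lemma Dat.IsIso.pol {A B : Dat Ω W} (hA : A.IsRep ν p) (hB : B.IsRep ν p) (i : A.IsIso B) {U : Subgroup W} {w : W}
    (hw : w ∈ U) (m : ℕ) : A.pol ν U w m = B.pol ν U w m := by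
  obtain ⟨e, he⟩ := i
  have hr : ∀ w x, e (A.ρ w x) = B.ρ w (e x) := fun w x => (he x).1 w
  have hN : ∀ x, e (A.N x) = B.N (e x) := fun x => (he x).2
  have hP : ∀ m x, e ((A.N ^ m) x) = (B.N ^ m) (e x) := by
    intro m
    induction m with
    | zero => intro x; rfl
    | succ m ih =>
      intro x
      rw [pow_succ, Module.End.mul_apply, ih, hN, pow_succ, Module.End.mul_apply]
  have hmem : ∀ x, x ∈ A.inv ν U m → e x ∈ B.inv ν U m := by
    intro x hx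
    rw [Dat.mem_inv] at hx ⊢
    exact ⟨by rw [← hP, hx.1, map_zero], fun g hg hν => by rw [← hr, hx.2 g hg hν]⟩
  have hmem' : ∀ x, x ∈ B.inv ν U m → e.symm x ∈ A.inv ν U m := by
    intro x hx
    rw [Dat.mem_inv] at hx ⊢
    refine ⟨e.injective ?_, fun g hg hν => e.injective ?_⟩
    · rw [hP, LinearEquiv.apply_symm_apply, hx.1, map_zero]
    · rw [hr, LinearEquiv.apply_symm_apply, hx.2 g hg hν]
  exact resChar_equiv (hA.inv_map hw m) (hB.inv_map hw m) e.toLinearMap hmem e.symm.toLinearMap hmem'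
    (fun x _ => e.symm_apply_apply x) (fun x _ => e.apply_symm_apply x) (fun x _ => hr w x)

/-! ### sums -/

lemma Dat.sum_pow (A B : Dat Ω W) (m : ℕ) (x : A.V × B.V) :
    ((A.sum B).N ^ m) x = ((A.N ^ m) x.1, (B.N ^ m) x.2) := by
  induction m generalizing x with
  | zero => rfl
  | succ m ih =>
    rw [pow_succ, Module.End.mul_apply, ih, pow_succ, pow_succ]
    rfl

lemma Dat.mem_sum_inv (A B : Dat Ω W) (U : Subgroup W) (m : ℕ) (x : (A.sum B).V) :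
    x ∈ (A.sum B).inv ν U m ↔ x.1 ∈ A.inv ν U m ∧ x.2 ∈ B.inv ν U m := by
  refine ((A.sum B).mem_inv (ν := ν) U m x).trans ?_
  rw [Dat.mem_inv, Dat.mem_inv]
  have h0 := A.sum_pow B m x
  constructor
  · rintro ⟨h1, h2⟩
    have h1' := h0.symm.trans h1
    exact ⟨⟨congrArg Prod.fst h1', fun g hg hν => congrArg Prod.fst (h2 g hg hν)⟩,
      ⟨congrArg Prod.snd h1', fun g hg hν => congrArg Prod.snd (h2 g hg hν)⟩⟩
  · rintro ⟨⟨h1, h2⟩, h3, h4⟩
    exact ⟨h0.trans (Prod.ext h1 h3), fun g hg hν => Prod.ext (h2 g hg hν) (h4 g hg hν)⟩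

lemma Dat.IsRep.sum {A B : Dat Ω W} (hA : A.IsRep ν p) (hB : B.IsRep ν p) : (A.sum B).IsRep ν p where
  one x := Prod.ext (hA.one x.1) (hB.one x.2)
  mul a b x := Prod.ext (hA.mul a b x.1) (hB.mul a b x.2)
  nil := by
    obtain ⟨a, ha⟩ := hA.nil
    obtain ⟨b, hb⟩ := hB.nil
    refine ⟨a + b, fun x => ?_⟩
    rw [Dat.monPow_eq, A.sum_pow B]
    refine Prod.ext ?_ ?_
    · change (A.N ^ (a + b)) x.1 = 0
      rw [add_comm, pow_add, Module.End.mul_apply, ← A.monPow_eq a, ha, map_zero]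
    · change (B.N ^ (a + b)) x.2 = 0
      rw [pow_add, Module.End.mul_apply, ← B.monPow_eq b, hb, map_zero]
  rel w x := Prod.ext (hA.rel w x.1) (hB.rel w x.2)
  smooth := by
    obtain ⟨J, h1, h2, h3⟩ := hA.smooth
    obtain ⟨J', h1', h2', h3'⟩ := hB.smooth
    refine ⟨J ⊓ J', ?_, inf_le_left.trans h2, fun g hg x => Prod.ext (h3 g hg.1 x.1) (h3' g hg.2 x.2)⟩
    rw [Subgroup.coe_inf]
    exact h1.inter h1'

lemma Dat.IsRep.sum_pol {A B : Dat Ω W} (hA : A.IsRep ν p) (hB : B.IsRep ν p) {U : Subgroup W} {w : W} (hw : w ∈ U)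
    (m : ℕ) : (A.sum B).pol ν U w m = A.pol ν U w m * B.pol ν U w m := by
  unfold Dat.pol
  rw [← resChar_prod (hA.inv_map hw m) (hB.inv_map hw m)]
  refine resChar_equiv ((hA.sum hB).inv_map hw m) ?_ (V' := A.V × B.V) LinearMap.id ?_ LinearMap.id ?_
    (fun _ _ => rfl) (fun _ _ => rfl) (fun _ _ => rfl)
  · rintro ⟨x, y⟩ hx
    exact ⟨hA.inv_map hw m x hx.1, hB.inv_map hw m y hx.2⟩
  · intro x hx
    exact (A.mem_sum_inv B U m x).1 hx
  · intro x hx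
    exact (A.mem_sum_inv B U m x).2 hx

/-! ### Tate twists -/

variable [CharZero Ω] [hp : Fact p.Prime]

lemma p_ne (Ω : Type) [Field Ω] [CharZero Ω] (p : ℕ) [hp : Fact p.Prime] : (p : Ω) ≠ 0 := by
  exact_mod_cast hp.out.ne_zero

lemma Dat.tate_rho (A : Dat Ω W) (w : W) (x : A.V) : (A.tate ν p).ρ w x = ((p : Ω) ^ dg ν w) • A.ρ w x := rfl

lemma Dat.tate_rho_zero (A : Dat Ω W) {w : W} (h : w ∈ ν.ker) (x : A.V) : (A.tate ν p).ρ w x = A.ρ w x := by
  rw [A.tate_rho, dg_eq_zero.2 h, zpow_zero, one_smul]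

lemma Dat.mem_tate_inv (A : Dat Ω W) (U : Subgroup W) (m : ℕ) (x : A.V) :
    x ∈ (A.tate ν p).inv ν U m ↔ x ∈ A.inv ν U m := by
  refine ((A.tate ν p).mem_inv (ν := ν) U m x).trans (Iff.trans ?_ (A.mem_inv (ν := ν) U m x).symm)
  constructor
  · rintro ⟨h1, h2⟩
    exact ⟨h1, fun g hg hν => (A.tate_rho_zero (p := p) hν x).symm.trans (h2 g hg hν)⟩
  · rintro ⟨h1, h2⟩
    exact ⟨h1, fun g hg hν => (A.tate_rho_zero (p := p) hν x).trans (h2 g hg hν)⟩

lemma Dat.IsRep.tate {A : Dat Ω W} (hA : A.IsRep ν p) : (A.tate ν p).IsRep ν p where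
  one x := by
    change (A.tate ν p).ρ 1 x = x
    rw [A.tate_rho, dg_one, zpow_zero, one_smul]
    exact hA.one x
  mul a b x := by
    change (A.tate ν p).ρ (a * b) x = (A.tate ν p).ρ a ((A.tate ν p).ρ b x)
    rw [A.tate_rho, A.tate_rho, A.tate_rho, dg_mul, zpow_add₀ (p_ne Ω p), hA.mul', map_smul, smul_smul]
  nil := hA.nil
  rel w x := by
    change A.N (((p : Ω) ^ dg ν w) • A.ρ w x) = ((p : Ω) ^ dg ν w) • (((p : Ω) ^ dg ν w) • A.ρ w (A.N x))
    rw [map_smul, hA.rel']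
  smooth := by
    obtain ⟨J, h1, h2, h3⟩ := hA.smooth
    refine ⟨J, h1, h2, fun g hg x => ?_⟩
    exact (A.tate_rho_zero (h2 hg) x).trans (h3 g hg x)

lemma Dat.IsRep.tate_pol {A : Dat Ω W} (hA : A.IsRep ν p) {U : Subgroup W} {w : W} (hw : w ∈ U) (m : ℕ) :
    (A.tate ν p).pol ν U w m = (A.pol ν U w m).scaleRoots ((p : Ω) ^ dg ν w) := by
  unfold Dat.pol
  have h : ∀ x ∈ A.inv ν U m, (((p : Ω) ^ dg ν w) • A.ρ w) x ∈ A.inv ν U m :=
    fun x hx => (A.inv ν U m).smul_mem _ (hA.inv_map hw m x hx)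
  have h1 : resChar ((A.tate ν p).ρ w) ((A.tate ν p).inv ν U m) =
      resChar (((p : Ω) ^ dg ν w) • A.ρ w) (A.inv ν U m) :=
    resChar_equiv (hA.tate.inv_map hw m) h (V' := A.V) LinearMap.id (fun x hx => (A.mem_tate_inv U m x).1 hx)
      LinearMap.id (fun x hx => (A.mem_tate_inv U m x).2 hx) (fun _ _ => rfl) (fun _ _ => rfl) (fun _ _ => rfl)
  rw [h1, resChar_eq h, resChar_eq (hA.inv_map hw m), ← charpoly_smul _ (zpow_ne_zero _ (p_ne Ω p))]
  rfl

/-! ### products with a Tate curve -/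

lemma Dat.curve_rho (A : Dat Ω W) (w : W) (x y : A.V) :
    (A.curve ν p).ρ w (x, y) = (A.ρ w x, ((p : Ω) ^ dg ν w) • A.ρ w y) := rfl

lemma Dat.curve_N (A : Dat Ω W) (x y : A.V) : (A.curve ν p).N (x, y) = (A.N x + y, A.N y) := rfl

lemma Dat.curve_pow (A : Dat Ω W) (k : ℕ) (x y : A.V) :
    ((A.curve ν p).N ^ (k + 1)) (x, y) =
      ((A.N ^ (k + 1)) x + ((k : Ω) + 1) • (A.N ^ k) y, (A.N ^ (k + 1)) y) := by
  induction k generalizing x y with
  | zero =>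
    rw [zero_add, pow_one, pow_one, pow_zero, A.curve_N]
    simp
  | succ n ih =>
    rw [pow_succ, Module.End.mul_apply, A.curve_N, ih]
    have e1 : (A.N ^ (n + 1)) (A.N x) = (A.N ^ (n + 1 + 1)) x := by
      rw [pow_succ A.N (n + 1), Module.End.mul_apply]
    have e2 : (A.N ^ n) (A.N y) = (A.N ^ (n + 1)) y := by
      rw [pow_succ A.N n, Module.End.mul_apply]
    have e3 : (A.N ^ (n + 1)) (A.N y) = (A.N ^ (n + 1 + 1)) y := by
      rw [pow_succ A.N (n + 1), Module.End.mul_apply]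
    rw [map_add, e1, e2, e3]
    refine Prod.ext ?_ rfl
    change (A.N ^ (n + 1 + 1)) x + (A.N ^ (n + 1)) y + ((n : Ω) + 1) • (A.N ^ (n + 1)) y =
      (A.N ^ (n + 1 + 1)) x + (((n + 1 : ℕ) : Ω) + 1) • (A.N ^ (n + 1)) y
    push_cast
    module

lemma Dat.IsRep.curve {A : Dat Ω W} (hA : A.IsRep ν p) : (A.curve ν p).IsRep ν p where
  one x := Prod.ext (hA.one x.1) (hA.tate.one x.2)
  mul a b x := Prod.ext (hA.mul a b x.1) (hA.tate.mul a b x.2)
  nil := by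
    obtain ⟨a, ha⟩ := hA.nil
    refine ⟨a + 1, fun x => ?_⟩
    have h0 : ∀ x, (A.N ^ a) x = 0 := fun x => by rw [← A.monPow_eq]; exact ha x
    have h1 : ∀ x, (A.N ^ (a + 1)) x = 0 := fun x => by
      rw [pow_succ, Module.End.mul_apply, h0]
    obtain ⟨x, y⟩ := x
    rw [Dat.monPow_eq, A.curve_pow, h0, h1, h1, smul_zero, add_zero]
    rfl
  rel w x := by
    obtain ⟨x, y⟩ := x
    change (A.N (A.ρ w x) + ((p : Ω) ^ dg ν w) • A.ρ w y, A.N (((p : Ω) ^ dg ν w) • A.ρ w y)) =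
      ((p : Ω) ^ dg ν w) • (A.ρ w (A.N x + y), ((p : Ω) ^ dg ν w) • A.ρ w (A.N y))
    rw [map_smul, hA.rel', hA.rel', Prod.smul_mk, map_add, smul_add]
  smooth := by
    obtain ⟨J, h1, h2, h3⟩ := hA.smooth
    refine ⟨J, h1, h2, fun g hg x => Prod.ext (h3 g hg x.1) ?_⟩
    exact (A.tate_rho_zero (h2 hg) x.2).trans (h3 g hg x.2)

/-- `(x, y) ↦ (x, N x + (k + 1) y)` -/
lemma Dat.IsRep.mem_curve_inv {A : Dat Ω W} (hA : A.IsRep ν p) (U : Subgroup W) (k : ℕ) (x y : A.V) :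
    (x, y) ∈ (A.curve ν p).inv ν U (k + 1) ↔
      x ∈ A.inv ν U (k + 2) ∧ A.N x + ((k : Ω) + 1) • y ∈ (A.tate ν p).inv ν U k := by
  have hk : ((k : Ω) + 1) ≠ 0 := by exact_mod_cast Nat.succ_ne_zero k
  have hN : ∀ z : A.V, (A.N ^ k) (A.N z) = (A.N ^ (k + 1)) z := by
    intro z
    rw [pow_succ A.N k, Module.End.mul_apply]
  have hNg : ∀ g ∈ ν.ker, ∀ z : A.V, A.N (A.ρ g z) = A.ρ g (A.N z) := by
    intro g hg z
    rw [hA.rel', dg_eq_zero.2 hg, zpow_zero, one_smul]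
  rw [A.mem_tate_inv, Dat.mem_inv, Dat.mem_inv]
  refine ((A.curve ν p).mem_inv (ν := ν) U (k + 1) (x, y)).trans ?_
  rw [A.curve_pow]
  constructor
  · rintro ⟨h1, h2⟩
    have h3 : (A.N ^ (k + 1)) x + ((k : Ω) + 1) • (A.N ^ k) y = 0 := congrArg Prod.fst h1
    have h4 : (A.N ^ (k + 1)) y = 0 := congrArg Prod.snd h1
    have h5 : ∀ g ∈ U, g ∈ ν.ker → A.ρ g x = x := fun g hg hν => congrArg Prod.fst (h2 g hg hν)
    have h6 : ∀ g ∈ U, g ∈ ν.ker → A.ρ g y = y := by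
      intro g hg hν
      have h7 : ((p : Ω) ^ dg ν g) • A.ρ g y = y := congrArg Prod.snd (h2 g hg hν)
      rw [dg_eq_zero.2 hν, zpow_zero, one_smul] at h7
      exact h7
    refine ⟨⟨?_, h5⟩, ?_, ?_⟩
    · have h7 : (A.N ^ (k + 2)) x = A.N ((A.N ^ (k + 1)) x) := by
        rw [pow_succ' A.N (k + 1), Module.End.mul_apply]
      have h8 : (A.N ^ (k + 1)) x = -(((k : Ω) + 1) • (A.N ^ k) y) := eq_neg_of_add_eq_zero_left h3
      have h9 : A.N ((A.N ^ k) y) = (A.N ^ (k + 1)) y := by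
        rw [pow_succ' A.N k, Module.End.mul_apply]
      rw [h7, h8, map_neg, map_smul, h9, h4, smul_zero, neg_zero]
    · rw [map_add, map_smul, hN, h3]
    · intro g hg hν
      rw [map_add, map_smul, h6 g hg hν, ← hNg g hν, h5 g hg hν]
  · rintro ⟨⟨h1, h2⟩, h3, h4⟩
    rw [map_add, map_smul, hN] at h3
    have h7 : (A.N ^ (k + 2)) x = A.N ((A.N ^ (k + 1)) x) := by
      rw [pow_succ' A.N (k + 1), Module.End.mul_apply]
    refine ⟨?_, ?_⟩
    · refine Prod.ext h3 ?_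
      have h5 := congrArg A.N h3
      rw [map_add, ← h7, h1, zero_add, map_smul, map_zero, smul_eq_zero] at h5
      have h6 := h5.resolve_left hk
      change (A.N ^ (k + 1)) y = 0
      rw [pow_succ' A.N k, Module.End.mul_apply]
      exact h6
    · intro g hg hν
      rw [A.curve_rho, dg_eq_zero.2 hν, zpow_zero, one_smul, h2 g hg hν]
      refine Prod.ext rfl ?_
      have h5 := h4 g hg hν
      rw [map_add, map_smul, ← hNg g hν, h2 g hg hν, add_right_inj] at h5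
      exact smul_right_injective _ hk h5

lemma Dat.IsRep.curve_pol {A : Dat Ω W} (hA : A.IsRep ν p) {U : Subgroup W} {w : W} (hw : w ∈ U) (k : ℕ) :
    (A.curve ν p).pol ν U w (k + 1) = A.pol ν U w (k + 2) * (A.tate ν p).pol ν U w k := by
  have hk : ((k : Ω) + 1) ≠ 0 := by exact_mod_cast Nat.succ_ne_zero k
  unfold Dat.pol
  rw [← resChar_prod (hA.inv_map hw (k + 2)) (hA.tate.inv_map hw k)]
  refine resChar_equiv (V' := A.V × (A.tate ν p).V) (hA.curve.inv_map hw (k + 1)) ?_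
    (LinearMap.prod (LinearMap.fst Ω A.V A.V) (A.N ∘ₗ LinearMap.fst Ω A.V A.V +
      ((k : Ω) + 1) • LinearMap.snd Ω A.V A.V)) ?_
    (LinearMap.prod (LinearMap.fst Ω A.V A.V) (((k : Ω) + 1)⁻¹ • (LinearMap.snd Ω A.V A.V -
      A.N ∘ₗ LinearMap.fst Ω A.V A.V))) ?_ ?_ ?_ ?_
  · rintro ⟨x, y⟩ hx
    exact ⟨hA.inv_map hw (k + 2) x hx.1, hA.tate.inv_map hw k y hx.2⟩
  · rintro ⟨x, y⟩ hx
    exact (hA.mem_curve_inv U k x y).1 hx
  · rintro ⟨x, y⟩ hx
    refine (hA.mem_curve_inv U k x _).2 ⟨hx.1, ?_⟩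
    change A.N x + ((k : Ω) + 1) • (((k : Ω) + 1)⁻¹ • (id (α := A.V) y - A.N x)) ∈ (A.tate ν p).inv ν U k
    rw [smul_inv_smul₀ hk, add_sub_cancel]
    exact hx.2
  · rintro ⟨x, y⟩ _
    refine Prod.ext rfl ?_
    change ((k : Ω) + 1)⁻¹ • ((A.N x + ((k : Ω) + 1) • y) - A.N x) = y
    rw [add_sub_cancel_left, inv_smul_smul₀ hk]
  · rintro ⟨x, y⟩ _
    refine Prod.ext rfl ?_
    change A.N x + ((k : Ω) + 1) • (((k : Ω) + 1)⁻¹ • (id (α := A.V) y - A.N x)) = id (α := A.V) y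
    rw [smul_inv_smul₀ hk, add_sub_cancel]
  · rintro ⟨x, y⟩ _
    refine Prod.ext rfl ?_
    change A.N (A.ρ w x) + ((k : Ω) + 1) • (((p : Ω) ^ dg ν w) • A.ρ w y) =
      ((p : Ω) ^ dg ν w) • A.ρ w (A.N x + ((k : Ω) + 1) • y)
    rw [hA.rel', map_add, map_smul]
    module

end

end Pool.Agent.Q173.WD
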