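import Pool.Agent.Q173.WD.Pol

/-!
# Euler factors of products with Tate curves determine the Weil–Deligne representations
-/

set_option autoImplicit false

namespace Pool.Agent.Q173.WD

open Polynomial

section

variable {Ω : Type} [Field Ω] {W : Type} [Group W] [TopologicalSpace W] {ν : W →* Multiplicative ℤ} {p : ℕ}

lemma Dat.IsRep.pol_eq {A : Dat Ω W} (h : A.IsRep ν p) {U : Subgroup W} {w : W} (hw : w ∈ U) (m : ℕ) :
    A.pol ν U w m = ((A.ρ w).restrict (h.inv_map hw m)).charpoly := resChar_eq _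

lemma Dat.IsRep.pol_monic {A : Dat Ω W} (h : A.IsRep ν p) {U : Subgroup W} {w : W} (hw : w ∈ U) (m : ℕ) :
    (A.pol ν U w m).Monic := by
  rw [h.pol_eq hw]
  exact LinearMap.charpoly_monic _

lemma Dat.IsRep.rho_inv {A : Dat Ω W} (h : A.IsRep ν p) (w : W) (x : A.V) : A.ρ w⁻¹ (A.ρ w x) = x := by
  rw [← h.mul', inv_mul_cancel, h.one']

lemma Dat.IsRep.pol_coeff {A : Dat Ω W} (h : A.IsRep ν p) {U : Subgroup W} {w : W} (hw : w ∈ U) (m : ℕ) :
    (A.pol ν U w m).coeff 0 ≠ 0 := by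
  intro h0
  have h1 : ((A.ρ w).restrict (h.inv_map hw m)).det = 0 := by
    rw [LinearMap.det_eq_sign_charpoly_coeff, ← h.pol_eq hw, h0, mul_zero]
  have h2 := LinearMap.bot_lt_ker_of_det_eq_zero h1
  obtain ⟨x, hx, hx0⟩ := Submodule.exists_mem_ne_zero_of_ne_bot h2.ne'
  apply hx0
  rw [LinearMap.mem_ker] at hx
  have h3 : A.ρ w x.1 = 0 := congrArg Subtype.val hx
  apply Subtype.ext
  rw [← h.rho_inv w x.1, h3, map_zero]
  rfl

lemma Dat.IsRep.pol_zero {A : Dat Ω W} (h : A.IsRep ν p) {U : Subgroup W} {w : W} (hw : w ∈ U) :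
    A.pol ν U w 0 = 1 := by
  have h' : ∀ x : A.inv ν U 0, x = 0 := by
    intro x
    apply Subtype.ext
    have := ((A.mem_inv (ν := ν) U 0 x.1).1 x.2).1
    simpa using this
  have : Subsingleton (A.inv ν U 0) := ⟨fun a b => by rw [h' a, h' b]⟩
  have h1 : (A.pol ν U w 0).natDegree = 0 := by
    rw [h.pol_eq hw, LinearMap.charpoly_natDegree, Module.finrank_zero_of_subsingleton]
  exact (h.pol_monic hw 0).natDegree_eq_zero.1 h1

end

/-- The products `X × E ^ k`. -/
def stack {C : Type*} (E : C → C) (X : C) : ℕ → C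
  | 0 => X
  | k + 1 => E (stack E X k)

section

variable {p : ℕ} [hp : Fact p.Prime] {W : Type} [Group W] [TopologicalSpace W] {ν : W →* Multiplicative ℤ}
  {C : Type*} {T : Theory p W C} {E : C → C}

lemma ratSame_one : RatSame (p := p) (fun ℓ => (1 : Polynomial (Ql ℓ))) := ⟨1, fun _ => (Polynomial.map_one _).symm⟩

lemma RatSame.congr {P Q : (ℓ : Aux p) → Polynomial (Ql ℓ)} (h : ∀ ℓ, P ℓ = Q ℓ) (hP : RatSame P) : RatSame Q := by
  obtain ⟨R, hR⟩ := hP
  exact ⟨R, fun ℓ => by rw [← h, hR]⟩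

/-- the independence statement for `Ker N ^ m` -/
def J (T : Theory p W C) (ν : W →* Multiplicative ℤ) (U : Subgroup W) (w : W) (m : ℕ) (X : C) : Prop :=
  ∀ n, RatSame (fun ℓ => (T.H X ℓ n).pol ν U w m)

lemma J_zero (hT : T.IsKnown ν E) {U : Subgroup W} {w : W} (hw : w ∈ U) (X : C) : J T ν U w 0 X := by
  intro n
  refine RatSame.congr (fun ℓ => ?_) ratSame_one
  exact ((hT.rep X ℓ n).pol_zero hw).symm

lemma tate_same (hT : T.IsKnown ν E) {U : Subgroup W} {w : W} (hw : w ∈ U) {m : ℕ} {X : C} {n : ℤ}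
    (h : RatSame (fun ℓ => (T.H X ℓ n).pol ν U w m)) :
    RatSame (fun ℓ => ((T.H X ℓ n).tate ν p).pol ν U w m) := by
  refine RatSame.congr (fun ℓ => ?_) (h.scale (dg ν w))
  exact ((hT.rep X ℓ n).tate_pol hw m).symm

lemma kunneth_pol (hT : T.IsKnown ν E) {U : Subgroup W} {w : W} (hw : w ∈ U) (k : ℕ) (X : C) (ℓ : Aux p) (n : ℤ) :
    (T.H (E X) ℓ n).pol ν U w (k + 1) = (T.H X ℓ (n - 1)).pol ν U w (k + 2) *
      (((T.H X ℓ (n - 1)).tate ν p).pol ν U w k * ((T.H X ℓ n).pol ν U w (k + 1) *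
        ((T.H X ℓ (n - 2)).tate ν p).pol ν U w (k + 1))) := by
  have r0 := hT.rep X ℓ n
  have r1 := hT.rep X ℓ (n - 1)
  have r2 := hT.rep X ℓ (n - 2)
  rw [(hT.kunneth X ℓ n).pol (hT.rep (E X) ℓ n) (r0.sum (r1.curve.sum r2.tate)) hw,
    r0.sum_pol (r1.curve.sum r2.tate) hw, r1.curve.sum_pol r2.tate hw, r1.curve_pol hw]
  ring

lemma J_up (hT : T.IsKnown ν E) {U : Subgroup W} {w : W} (hw : w ∈ U) (k : ℕ) (X : C)
    (h : J T ν U w (k + 1) (E X)) (h1 : J T ν U w (k + 1) X) (h0 : J T ν U w k X) : J T ν U w (k + 2) X := by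
  intro n
  have h2 := h (n + 1)
  have h3 : RatSame (fun ℓ => (T.H X ℓ n).pol ν U w (k + 2) * (((T.H X ℓ n).tate ν p).pol ν U w k *
      ((T.H X ℓ (n + 1)).pol ν U w (k + 1) * ((T.H X ℓ (n - 1)).tate ν p).pol ν U w (k + 1)))) := by
    refine RatSame.congr (fun ℓ => ?_) h2
    have h4 := kunneth_pol hT hw k X ℓ (n + 1)
    rw [show n + 1 - 1 = n by ring, show n + 1 - 2 = n - 1 by ring] at h4
    exact h4
  apply h3.of_mul ((tate_same hT hw (h0 n)).mul ((h1 (n + 1)).mul (tate_same hT hw (h1 (n - 1)))))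
  intro ℓ
  exact ((hT.rep X ℓ n).tate.pol_monic hw k).mul (((hT.rep X ℓ (n + 1)).pol_monic hw (k + 1)).mul
    ((hT.rep X ℓ (n - 1)).tate.pol_monic hw (k + 1)))

lemma J_down (hT : T.IsKnown ν E) {U : Subgroup W} {w : W} (hw : w ∈ U) (k : ℕ) (X : C)
    (h2 : J T ν U w (k + 2) X) (h1 : J T ν U w (k + 1) X) (h0 : J T ν U w k X) : J T ν U w (k + 1) (E X) := by
  intro n
  refine RatSame.congr (fun ℓ => ?_)
    ((h2 (n - 1)).mul ((tate_same hT hw (h0 (n - 1))).mul ((h1 n).mul (tate_same hT hw (h1 (n - 2))))))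
  exact (kunneth_pol hT hw k X ℓ n).symm

/-- **One variety, one field.** -/
theorem stack_iff (hT : T.IsKnown ν E) {U : Subgroup W} {w : W} (hw : w ∈ U) (X : C) (K : ℕ) :
    (∀ k ≤ K, J T ν U w 1 (stack E X k)) ↔ ∀ m ≤ K + 1, J T ν U w m X := by
  constructor
  · intro h
    have h1 : ∀ m k, k + m ≤ K + 1 → J T ν U w m (stack E X k) := by
      intro m
      induction m using Nat.strong_induction_on with
      | _ m ih =>
        intro k hk
        rcases m with _ | m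
        · exact J_zero hT hw _
        rcases m with _ | m
        · exact h k (by omega)
        · exact J_up hT hw m (stack E X k) (ih (m + 1) (by omega) (k + 1) (by omega))
            (ih (m + 1) (by omega) k (by omega)) (ih m (by omega) k (by omega))
    intro m hm
    exact h1 m 0 (by omega)
  · intro h
    have h1 : ∀ k m, k + m ≤ K + 1 → J T ν U w m (stack E X k) := by
      intro k
      induction k with
      | zero =>
        intro m hm
        exact h m (by omega)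
      | succ k ih =>
        intro m hm
        rcases m with _ | m
        · exact J_zero hT hw _
        · exact J_down hT hw m (stack E X k) (ih (m + 2) (by omega)) (ih (m + 1) (by omega)) (ih m (by omega))
    intro k hk
    exact h1 k 1 (by omega)

lemma integral_resChar {Ω V : Type} [Field Ω] [CharZero Ω] [AddCommGroup V] [Module Ω V] [Module.Finite Ω V]
    (f : V →ₗ[Ω] V) {S : Submodule Ω V} (hS : ∀ x ∈ S, f x ∈ S) (h : IntCoeff f.charpoly) :
    IntCoeff (resChar f S) := by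
  rw [resChar_eq hS]
  exact fun i => integral_of_dvd (LinearMap.charpoly_monic _) (LinearMap.charpoly_monic _)
    (charpoly_restrict_dvd _ _ _) h i

lemma integral_reverse {B : Type} [Field B] {P : B[X]} (h : IntCoeff P) (i : ℕ) :
    IsIntegral ℤ (P.reverse.coeff i) := by
  rw [coeff_reverse]
  exact h _

/-- integral and rational version of the independence -/
lemma good_iff (hT : T.IsKnown ν E) {U : Subgroup W} {w : W} (hw : w ∈ U) (h0 : 0 < dg ν w) (m : ℕ) (X : C) :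
    T.Good ν U w m X ↔ J T ν U w m X := by
  constructor
  · intro h n
    exact (RatSame.reverse (fun ℓ => (hT.rep X ℓ n).pol_coeff hw m)).1 (h n).rat
  · intro h n
    refine RatSame.same ((RatSame.reverse (fun ℓ => (hT.rep X ℓ n).pol_coeff hw m)).2 (h n)) ?_
    intro ℓ i
    exact integral_reverse (integral_resChar _ ((hT.rep X ℓ n).inv_map hw m) (hT.int X ℓ n w h0)) i

/-- The `ℓ`-independence of all Euler factors over `ℚ_p` implies that over the finite extensions. -/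
lemma J_ext (hT : T.IsKnown ν E) {F : W} (hF : dg ν F = 1)
    (h : ∀ X, J T ν ⊤ F 1 X) {U : Subgroup W} (hU : IsField ν U) {w : W}
    (hf : IsFrob ν U w) (X : C) : J T ν U w 1 X := by
  have hFF : IsFrob ν ⊤ F := ⟨Subgroup.mem_top F, by omega, fun u _ hu => by omega⟩
  obtain ⟨S, hS⟩ := hT.ext U hU
  intro n
  have h1 := (RatSame.reverse (fun ℓ => (hT.rep (S X) ℓ n).pol_coeff (Subgroup.mem_top F) 1)).2 (h (S X) n)
  have h2 : RatSame (fun ℓ => Polynomial.expand _ (dg ν w).toNat ((T.H X ℓ n).euler ν U w 1)) :=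
    RatSame.congr (fun ℓ => hS X ℓ n F w hFF hf) h1
  have h3 := h2.expand (by
    have := hf.2.1
    omega)
  exact (RatSame.reverse (fun ℓ => (hT.rep X ℓ n).pol_coeff hf.1 1)).1 h3

/-- **All varieties.** -/
theorem all_iff (hT : T.IsKnown ν E) {F : W} (hF : dg ν F = 1) :
    (∀ X, J T ν ⊤ F 1 X) ↔
      ∀ (U : Subgroup W) (w : W), IsField ν U → IsFrob ν U w → ∀ m X, J T ν U w m X := by
  constructor
  · intro h U w hU hf m X
    exact (stack_iff hT hf.1 X m).1 (fun k _ => J_ext hT hF h hU hf _) m (by omega)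
  · intro h X
    apply h
    · exact ⟨isOpen_univ, F, Subgroup.mem_top F, by omega⟩
    · exact ⟨Subgroup.mem_top F, by omega, fun u _ hu => by omega⟩

/-- for the subgroup generated by `w` and a subgroup `I` of the inertia group which acts trivially -/
lemma char_eq {Ω : Type} [Field Ω] {A : Dat Ω W} (hA : A.IsRep ν p) {U I : Subgroup W} {w : W} (h0 : 0 < dg ν w)
    (hwU : w ∈ U) (hI : ∀ i ∈ I, i ∈ ν.ker ∧ ∀ x, A.ρ i x = x)
    (hmem : ∀ u ∈ U, ∃ a : ℤ, ∃ i ∈ I, u = w ^ a * i) (m : ℕ) :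
    A.pol ν U w m = A.char w m := by
  have e1 : ∀ x, x ∈ A.inv ν U m ↔ x ∈ LinearMap.ker (A.N ^ m) := by
    intro x
    rw [Dat.mem_inv, LinearMap.mem_ker]
    constructor
    · rintro ⟨a1, _⟩
      exact a1
    · intro a1
      refine ⟨a1, fun g hg hν => ?_⟩
      obtain ⟨a, i, hi, rfl⟩ := hmem g hg
      have h5 : dg ν (w ^ a * i) = 0 := dg_eq_zero.2 hν
      rw [dg_mul, dg_zpow, dg_eq_zero.2 (hI i hi).1, add_zero] at h5
      have h6 : a = 0 := by
        rcases mul_eq_zero.1 h5 with h | h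
        · exact h
        · omega
      rw [h6, zpow_zero, one_mul, (hI i hi).2]
  exact resChar_equiv (hA.inv_map hwU m) (hA.ker_map w m) LinearMap.id (fun x hx => (e1 x).1 hx) LinearMap.id
    (fun x hx => (e1 x).2 hx) (fun _ _ => rfl) (fun _ _ => rfl) (fun _ _ => rfl)

/-- the characteristic polynomials of all elements of positive degree on the kernels of the powers of `N` -/
theorem elements [IsTopologicalGroup W] (hT : T.IsKnown ν E)
    (h : ∀ (U : Subgroup W) (w : W), IsField ν U → IsFrob ν U w → ∀ m X, J T ν U w m X)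
    {w : W} (h0 : 0 < dg ν w) (m : ℕ) (X : C) (n : ℤ) :
    RatSame (fun ℓ => (T.H X ℓ n).char w m) := by
  apply RatSame.of_pairs
  intro ℓ ℓ'
  have r := hT.rep X ℓ n
  have r' := hT.rep X ℓ' n
  obtain ⟨J₁, h1, h2, h3⟩ := r.smooth
  obtain ⟨J₂, h1', h2', h3'⟩ := r'.smooth
  -- the elements of the inertia group which act trivially on both representations
  set I : Subgroup W :=
    { carrier := {g | g ∈ ν.ker ∧ (∀ x, (T.H X ℓ n).ρ g x = x) ∧ ∀ x, (T.H X ℓ' n).ρ g x = x}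
      mul_mem' := by
        rintro a b ⟨a1, a2, a3⟩ ⟨b1, b2, b3⟩
        exact ⟨ν.ker.mul_mem a1 b1, fun x => by rw [r.mul', b2, a2], fun x => by rw [r'.mul', b3, a3]⟩
      one_mem' := ⟨ν.ker.one_mem, fun x => r.one' x, fun x => r'.one' x⟩
      inv_mem' := by
        rintro a ⟨a1, a2, a3⟩
        refine ⟨ν.ker.inv_mem a1, fun x => ?_, fun x => ?_⟩
        · have := r.rho_inv a x
          rwa [a2] at this
        · have := r'.rho_inv a x
          rwa [a3] at this } with hI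
  have hmemI : ∀ g, g ∈ I ↔ g ∈ ν.ker ∧ (∀ x, (T.H X ℓ n).ρ g x = x) ∧ ∀ x, (T.H X ℓ' n).ρ g x = x :=
    fun g => Iff.rfl
  have hN : I.Normal := by
    refine ⟨fun g hg b => ?_⟩
    rw [hmemI] at hg ⊢
    obtain ⟨g1, g2, g3⟩ := hg
    refine ⟨ν.normal_ker.conj_mem g g1 b, fun x => ?_, fun x => ?_⟩
    · rw [r.mul', r.mul', g2, ← r.mul', mul_inv_cancel, r.one']
    · rw [r'.mul', r'.mul', g3, ← r'.mul', mul_inv_cancel, r'.one']
  have hIo : IsOpen (I : Set W) := by
    refine Subgroup.isOpen_mono (H₁ := J₁ ⊓ J₂) ?_ (by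
      rw [Subgroup.coe_inf]
      exact h1.inter h1')
    intro g hg
    exact ⟨h2 hg.1, h3 g hg.1, h3' g hg.2⟩
  set U : Subgroup W := Subgroup.zpowers w ⊔ I with hU
  have hwU : w ∈ U := (le_sup_left : Subgroup.zpowers w ≤ U) (Subgroup.mem_zpowers w)
  have hmem : ∀ u ∈ U, ∃ a : ℤ, ∃ i ∈ I, u = w ^ a * i := by
    intro u hu
    rw [hU, ← SetLike.mem_coe, Subgroup.mul_normal] at hu
    obtain ⟨z, hz, i, hi, rfl⟩ := Set.mem_mul.1 hu
    obtain ⟨a, rfl⟩ := Subgroup.mem_zpowers_iff.1 hz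
    exact ⟨a, i, hi, rfl⟩
  have hUo : IsOpen (U : Set W) := Subgroup.isOpen_mono (le_sup_right : I ≤ U) hIo
  have hUf : IsField ν U := ⟨hUo, w, hwU, h0⟩
  have hUw : IsFrob ν U w := by
    refine ⟨hwU, h0, fun u hu hu0 => ?_⟩
    obtain ⟨a, i, hi, rfl⟩ := hmem u hu
    rw [dg_mul, dg_zpow, dg_eq_zero.2 ((hmemI i).1 hi).1, add_zero] at hu0 ⊢
    have ha : 0 < a := by
      by_contra hc
      have := mul_nonpos_of_nonpos_of_nonneg (show a ≤ 0 by omega) h0.le
      omega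
    nlinarith
  obtain ⟨R, hR⟩ := h U w hUf hUw m X n
  refine ⟨R, ?_, ?_⟩
  · rw [← char_eq r h0 hwU (I := I) (fun i hi => ⟨((hmemI i).1 hi).1, ((hmemI i).1 hi).2.1⟩) hmem]
    exact hR ℓ
  · rw [← char_eq r' h0 hwU (I := I) (fun i hi => ⟨((hmemI i).1 hi).1, ((hmemI i).1 hi).2.2⟩) hmem]
    exact hR ℓ'

/-- an element of minimal positive degree -/
lemma exists_frob {U : Subgroup W} (hU : IsField ν U) : ∃ w, IsFrob ν U w := by
  classical
  obtain ⟨_, w₀, hw₀, h0⟩ := hU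
  have hex : ∃ d : ℕ, 0 < d ∧ ∃ w ∈ U, dg ν w = d := ⟨(dg ν w₀).toNat, by omega, w₀, hw₀, by omega⟩
  obtain ⟨h1, w, hw, h2⟩ := Nat.find_spec hex
  refine ⟨w, hw, by omega, fun u hu hu0 => ?_⟩
  have h3 := Nat.find_min' hex (m := (dg ν u).toNat) ⟨by omega, u, hu, by omega⟩
  omega

lemma dim_eq (hT : T.IsKnown ν E) {U : Subgroup W} {w : W} (hw : w ∈ U) (m : ℕ) (X : C) (n : ℤ)
    (h : RatSame (fun ℓ => (T.H X ℓ n).pol ν U w m)) (ℓ ℓ' : Aux p) :
    (T.H X ℓ n).invDim ν U m = (T.H X ℓ' n).invDim ν U m := by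
  obtain ⟨R, hR⟩ := h
  have h1 : ∀ ℓ, (T.H X ℓ n).invDim ν U m = R.natDegree := by
    intro ℓ
    unfold Dat.invDim
    rw [← LinearMap.charpoly_natDegree (((T.H X ℓ n).ρ w).restrict ((hT.rep X ℓ n).inv_map hw m)),
      ← (hT.rep X ℓ n).pol_eq hw]
    have h2 : (T.H X ℓ n).pol ν U w m = _ := hR ℓ
    rw [h2, natDegree_map]
  rw [h1, h1]

end

end Pool.Agent.Q173.WD
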