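import Pool.Agent.Q173.WD.Lin

/-!
# Families of polynomials which come from one polynomial over the integers
-/

set_option autoImplicit false

namespace Pool.Agent.Q173.WD

open Polynomial

lemma reverse_map_inj {A B : Type} [CommRing A] [CommRing B] (f : A →+* B) (hf : Function.Injective f) (R : A[X]) :
    (R.map f).reverse = R.reverse.map f := by
  unfold reverse
  rw [natDegree_map_eq_of_injective hf, reflect_map]

lemma reverse_rev {B : Type} [Field B] {P : B[X]} (h0 : P.coeff 0 ≠ 0) : P.reverse.reverse = P := by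
  have h1 : P.natTrailingDegree = 0 := by
    rw [natTrailingDegree_eq_zero]
    right
    exact h0
  have h2 : P.reverse.natDegree = P.natDegree := by
    rw [reverse_natDegree, h1, Nat.sub_zero]
  unfold reverse at h2 ⊢
  rw [h2, reflect_reflect]

variable {p : ℕ}

/-- The polynomials `P ℓ` are equal to one polynomial with rational coefficients. -/
def RatSame (P : (ℓ : Aux p) → Polynomial (Ql ℓ)) : Prop := ∃ R : ℚ[X], ∀ ℓ, P ℓ = R.map (Rat.castHom _)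

lemma Same.rat {P : (ℓ : Aux p) → Polynomial (Ql ℓ)} (h : Same P) : RatSame P := by
  obtain ⟨R, hR⟩ := h
  refine ⟨R.map (Int.castRingHom ℚ), fun ℓ => ?_⟩
  rw [hR, Polynomial.map_map]
  congr 1

lemma RatSame.mul {P Q : (ℓ : Aux p) → Polynomial (Ql ℓ)} (h : RatSame P) (h' : RatSame Q) :
    RatSame (fun ℓ => P ℓ * Q ℓ) := by
  obtain ⟨R, hR⟩ := h
  obtain ⟨S, hS⟩ := h'
  exact ⟨R * S, fun ℓ => by
    change P ℓ * Q ℓ = _
    rw [hR, hS, Polynomial.map_mul]⟩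

lemma RatSame.of_mul {P Q : (ℓ : Aux p) → Polynomial (Ql ℓ)} (h : RatSame (fun ℓ => P ℓ * Q ℓ)) (h' : RatSame Q)
    (hQ : ∀ ℓ, (Q ℓ).Monic) : RatSame P := by
  obtain ⟨R, hR⟩ := h
  obtain ⟨S, hS⟩ := h'
  by_cases hne : Nonempty (Aux p)
  · obtain ⟨ℓ₀⟩ := hne
    have hdvd : S ∣ R := by
      rw [← Polynomial.map_dvd_map' (Rat.castHom (Ql ℓ₀)), ← hR, ← hS]
      exact Dvd.intro_left (P ℓ₀) rfl
    obtain ⟨T, hT⟩ := hdvd
    refine ⟨T, fun ℓ => ?_⟩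
    have h1 : P ℓ * Q ℓ = _ := hR ℓ
    rw [hT, Polynomial.map_mul, ← hS, mul_comm (P ℓ)] at h1
    exact mul_left_cancel₀ (hQ ℓ).ne_zero h1
  · exact ⟨0, fun ℓ => (hne ⟨ℓ⟩).elim⟩

lemma RatSame.scale {P : (ℓ : Aux p) → Polynomial (Ql ℓ)} (h : RatSame P) (n : ℤ) :
    RatSame (fun ℓ => (P ℓ).scaleRoots ((p : (Ql ℓ)) ^ n)) := by
  obtain ⟨R, hR⟩ := h
  refine ⟨R.scaleRoots ((p : ℚ) ^ n), fun ℓ => ?_⟩
  change (P ℓ).scaleRoots _ = _
  rw [hR]
  by_cases h0 : R = 0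
  · rw [h0]
    simp
  · rw [Polynomial.map_scaleRoots _ _ _ (by
      rw [Ne, map_eq_zero]
      exact leadingCoeff_ne_zero.2 h0), map_zpow₀]
    simp

lemma RatSame.reverse {P : (ℓ : Aux p) → Polynomial (Ql ℓ)} (h0 : ∀ ℓ, (P ℓ).coeff 0 ≠ 0) :
    RatSame (fun ℓ => (P ℓ).reverse) ↔ RatSame P := by
  constructor
  · rintro ⟨R, hR⟩
    refine ⟨R.reverse, fun ℓ => ?_⟩
    have h1 : (P ℓ).reverse = _ := hR ℓ
    rw [← reverse_map_inj _ (RingHom.injective _), ← h1, reverse_rev (h0 ℓ)]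
  · rintro ⟨R, hR⟩
    refine ⟨R.reverse, fun ℓ => ?_⟩
    change (P ℓ).reverse = _
    rw [← reverse_map_inj _ (RingHom.injective _), ← hR]

/-- a polynomial over `ℚ` whose image has integral coefficients -/
lemma int_of_integral {R : ℚ[X]} {B : Type} [Field B] [CharZero B] (h : ∀ i, IsIntegral ℤ ((R.map (Rat.castHom B)).coeff i)) :
    ∃ R' : ℤ[X], R'.map (Int.castRingHom ℚ) = R := by
  have h1 : ∀ i, ∃ z : ℤ, (Int.castRingHom ℚ) z = R.coeff i := by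
    intro i
    have h2 := h i
    rw [coeff_map] at h2
    have h3 : IsIntegral ℤ (R.coeff i) :=
      (isIntegral_algHom_iff ((Rat.castHom B).toIntAlgHom) (Rat.castHom B).injective).1 h2
    obtain ⟨z, hz⟩ := IsIntegrallyClosed.algebraMap_eq_of_integral h3
    exact ⟨z, hz⟩
  have h4 : R ∈ Polynomial.lifts (Int.castRingHom ℚ) := by
    rw [Polynomial.lifts_iff_coeff_lifts]
    intro i
    obtain ⟨z, hz⟩ := h1 i
    exact ⟨z, hz⟩
  obtain ⟨R', hR'⟩ := (Polynomial.mem_lifts _).1 h4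
  exact ⟨R', hR'⟩

lemma RatSame.same {P : (ℓ : Aux p) → Polynomial (Ql ℓ)} (h : RatSame P) (hi : ∀ ℓ i, IsIntegral ℤ ((P ℓ).coeff i)) :
    Same P := by
  obtain ⟨R, hR⟩ := h
  by_cases hne : Nonempty (Aux p)
  · obtain ⟨ℓ₀⟩ := hne
    obtain ⟨R', hR'⟩ := int_of_integral (R := R) (B := (Ql ℓ₀)) (by
      intro i
      rw [← hR]
      exact hi ℓ₀ i)
    refine ⟨R', fun ℓ => ?_⟩
    rw [hR, ← hR', Polynomial.map_map]
    congr 1
  · exact ⟨0, fun ℓ => (hne ⟨ℓ⟩).elim⟩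

/-- coefficients of divisors -/
lemma integral_of_dvd {B : Type} [Field B] {P Q : B[X]} (hP : P.Monic) (hQ : Q.Monic) (h : Q ∣ P)
    (hi : ∀ i, IsIntegral ℤ (P.coeff i)) (i : ℕ) : IsIntegral ℤ (Q.coeff i) := by
  have h1 : P ∈ Polynomial.lifts (algebraMap (integralClosure ℤ B) B) := by
    rw [Polynomial.lifts_iff_coeff_lifts]
    intro i
    exact ⟨⟨P.coeff i, hi i⟩, rfl⟩
  obtain ⟨P', hP', _, hm⟩ := Polynomial.lifts_and_natDegree_eq_and_monic h1 hP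
  have h2 := Polynomial.isIntegral_coeff_of_dvd P' Q hm hQ (by rw [hP']; exact h) i
  exact isIntegral_trans (R := ℤ) (A := integralClosure ℤ B) _ h2

lemma RatSame.expand {P : (ℓ : Aux p) → Polynomial (Ql ℓ)} {f : ℕ} (hf : f ≠ 0)
    (h : RatSame (fun ℓ => Polynomial.expand _ f (P ℓ))) : RatSame P := by
  obtain ⟨R, hR⟩ := h
  refine ⟨contract f R, fun ℓ => ?_⟩
  have h1 : Polynomial.expand _ f (P ℓ) = _ := hR ℓ
  rw [map_contract hf, ← h1, contract_expand f hf]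

/-- polynomials which agree for every pair of primes agree for all primes -/
lemma RatSame.of_pairs {P : (ℓ : Aux p) → Polynomial (Ql ℓ)}
    (h : ∀ ℓ ℓ', ∃ R : ℚ[X], P ℓ = R.map (Rat.castHom _) ∧ P ℓ' = R.map (Rat.castHom _)) : RatSame P := by
  by_cases hne : Nonempty (Aux p)
  · obtain ⟨ℓ₀⟩ := hne
    obtain ⟨R, hR, _⟩ := h ℓ₀ ℓ₀
    refine ⟨R, fun ℓ => ?_⟩
    obtain ⟨S, h1, h2⟩ := h ℓ₀ ℓ
    rw [h2]
    congr 1
    apply Polynomial.map_injective _ (Rat.castHom (Ql ℓ₀)).injective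
    rw [← h1, hR]
  · exact ⟨0, fun ℓ => (hne ⟨ℓ⟩).elim⟩

end Pool.Agent.Q173.WD
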